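import Pool.Agent.helper51.VR.Spec

set_option autoImplicit false

namespace Pool.Agent.VR

open Pool.Agent.RB NumberField IsDedekindDomain Module
open scoped nonZeroDivisors Real Classical IsMulCommutative

/-- a set of representatives for an involution without fixed points -/
theorem FCT_reps {G : Type} (f : G → G) (h1 : ∀ x, f (f x) = x) (h2 : ∀ x, f x ≠ x) :
    ∃ A : Set G, ∀ x, (x ∈ A ↔ f x ∉ A) := by
  let s : Setoid G := ⟨fun x y => x = y ∨ x = f y, ⟨fun x => Or.inl rfl, by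
    rintro x y (h | h)
    · exact Or.inl h.symm
    · exact Or.inr (by rw [h, h1]), by
    rintro x y z (h | h) (h' | h')
    · exact Or.inl (h.trans h')
    · exact Or.inr (h.trans h')
    · exact Or.inr (by rw [h, h'])
    · exact Or.inl (by rw [h, h', h1])⟩⟩
  refine ⟨{x | (Quotient.mk s x).out = x}, fun x => ?_⟩
  have h3 : Quotient.mk s (f x) = Quotient.mk s x := Quotient.sound (Or.inr rfl)
  have h4 : (Quotient.mk s x).out = x ∨ (Quotient.mk s x).out = f x :=
    Quotient.exact (Quotient.out_eq (Quotient.mk s x))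
  rw [Set.mem_ofPred_eq, Set.mem_ofPred_eq, h3]
  constructor
  · intro h h5
    exact h2 x (h5.symm.trans h)
  · intro h
    rcases h4 with h4 | h4
    · exact h4
    · exact absurd h4 h

theorem FCT_minus {G : Type} [Group G] (c : G) (hc : c * c = 1) (hc1 : c ≠ 1)
    (y : MonoidAlgebra ℤ G) (hy : MonoidAlgebra.single c 1 * y = -y) :
    ∃ z : MonoidAlgebra ℤ G, y = (1 - MonoidAlgebra.single c 1) * z := by
  have hci : c⁻¹ = c := inv_eq_of_mul_eq_one_left hc
  obtain ⟨A, hA⟩ := FCT_reps (fun x => c * x) (fun x => by rw [← mul_assoc, hc, one_mul])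
    (fun x h => hc1 (mul_eq_right.1 h))
  refine ⟨MonoidAlgebra.ofCoeff (y.coeff.filter (· ∈ A)), ?_⟩
  apply MonoidAlgebra.coeff_injective
  ext τ
  have h1 : y.coeff (c * τ) = - y.coeff τ := by
    have h2 := congrArg (fun w => w.coeff τ) hy
    simp only [MonoidAlgebra.coeff_single_mul_apply, MonoidAlgebra.coeff_neg, Finsupp.neg_apply,
      one_mul, hci] at h2
    exact h2
  rw [sub_mul, one_mul, MonoidAlgebra.coeff_sub, Finsupp.sub_apply,
    MonoidAlgebra.coeff_single_mul_apply, one_mul, hci, MonoidAlgebra.coeff_ofCoeff]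
  by_cases h3 : τ ∈ A
  · have h4 := (hA τ).1 h3
    rw [Finsupp.filter_apply_pos _ _ h3, Finsupp.filter_apply_neg _ _ h4, sub_zero]
  · have h4 : c * τ ∈ A := by
      by_contra h5
      exact h3 ((hA τ).2 h5)
    rw [Finsupp.filter_apply_neg _ _ h3, Finsupp.filter_apply_pos _ _ h4, h1]
    ring

theorem FCT : FCT_stmt := by
  intro F H _ _ _ _ _ _ _ r D
  have hcc : D.c * D.c = 1 := by
    ext x
    rw [AlgEquiv.mul_apply, D.hc, D.hc, IsCMField.complexConj_apply_apply, AlgEquiv.one_apply]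
  have hc1 : D.c ≠ 1 := by
    intro h
    apply IsCMField.complexConj_ne_one (K := H)
    ext x
    rw [← D.hc, h]
    rfl
  have hnc : ∀ i, {P : HOS H | P.under (𝓞 F) = (D.w i).under (𝓞 F)}.ncard = finrank F H := by
    intro i
    rw [D.hw i]
    exact D.hvs i
  have hund : ∀ (σ : H ≃ₐ[F] H) (P : HOS H), (act (σ : H ≃+* H) P).under (𝓞 F) = P.under (𝓞 F) :=
    fun σ P => (ORD H).2.2.2.2.2.2.2.2 F (σ : H ≃+* H) P (fun x => σ.commutes x)
  have h4 : ∀ (i : Fin r) (P : HOS H), P.under (𝓞 F) = D.v i ↔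
      ∃ σ : H ≃ₐ[F] H, act (σ : H ≃+* H) (D.w i) = P := by
    intro i P
    constructor
    · intro h
      exact (fin_spl F H (D.w i) (hnc i)).2.1 P (by rw [h, D.hw i])
    · rintro ⟨σ, rfl⟩
      rw [hund, D.hw i]
  refine ⟨hcc, hc1, ?_, h4, ?_, ?_, ?_, ?_⟩
  · intro i j σ h
    have h1 : D.v i = D.v j := by
      rw [← D.hw i, ← D.hw j, ← h, hund]
    have h2 := D.hv h1
    subst h2
    exact ⟨rfl, (fin_spl F H (D.w i) (hnc i)).1 σ h⟩
  · intro x
    have h5 : x ∈ UU D ↔ (∀ P : HOS H, P.under (𝓞 F) ∈ (D.T : Set (HOS F)) →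
        P.valuation H ((x : H) - 1) < 1) ∧
        ∀ P : HOS H, P.under (𝓞 F) ∉ Set.range D.v → P.valuation H (x : H) = 1 := Iff.rfl
    rw [h5]
    refine and_congr ?_ ?_
    · exact Iff.rfl
    · refine forall_congr' fun P => forall_congr' fun _ => ?_
      exact ((ORD H).2.2.1 (x : H) P x.ne_zero).symm
  · intro x i
    constructor
    · intro h P hP
      obtain ⟨σ, rfl⟩ := (h4 i P).1 hP
      rw [← (vr_orz F H (D.w i)).2.2.2.2 (x : H) σ, h]
      rfl
    · intro h
      apply MonoidAlgebra.coeff_injective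
      ext τ
      rw [(vr_orz F H (D.w i)).2.2.2.2 (x : H) τ, h _ ((h4 i _).2 ⟨τ, rfl⟩)]
      rfl
  · intro y hy
    exact FCT_minus D.c hcc hc1 y hy
  · intro w τ x
    apply MonoidAlgebra.coeff_injective
    ext σ
    rw [MonoidAlgebra.coeff_single_mul_apply, one_mul, inv_inv, (vr_orz F H w).2.2.2.2,
      (vr_orz F H (act (τ : H ≃+* H) w)).2.2.2.2, ← (ORD H).2.2.2.2.2.2.2.1, mul_comm τ σ]
    rfl

end Pool.Agent.VR
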